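import Mathlib

set_option autoImplicit false

namespace Pool.Agent.Results.MP_0479e2_co.Main

/-- `S` is a total dominating set of `G`. -/
def IsTDS {V : Type} (G : SimpleGraph V) (S : Finset V) : Prop :=
  ∀ v, ∃ u ∈ S, G.Adj v u

/-- The total domination number. -/
noncomputable def gammaT {V : Type} (G : SimpleGraph V) : ℕ :=
  sInf {k : ℕ | ∃ S : Finset V, IsTDS G S ∧ S.card = k}

/-- `G` is bipartite. -/
def Bipartite {V : Type} (G : SimpleGraph V) : Prop :=
  ∃ c : V → Bool, ∀ u v, G.Adj u v → c u ≠ c v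

/-- `G` has no isolated vertex. -/
def NoIsolated {V : Type} (G : SimpleGraph V) : Prop := ∀ v, ∃ u, G.Adj v u

/-- The bound of Q1. -/
def bound (n g : ℕ) : ℕ := ((n - g) * (n - g + 4) + 2 * g - 2) / 4

/-- The vertices of `G(x) ∪ j K_2`: `⌈x/2 - 1⌉` left ones, `⌊x/2 + 1⌋` right ones and `2 j`
others. -/
abbrev NV (x j : ℕ) : Type := (Fin ((x + 1) / 2 - 1) ⊕ Fin (x / 2 + 1)) ⊕ (Fin j × Bool)

/-- Adjacency in `G(x) ∪ j K_2`; the deleted maximum matching of `G(x)` joins the left and the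
right vertex with equal index. -/
def adjN (x j : ℕ) : NV x j → NV x j → Bool
  | .inl (.inl a), .inl (.inr b) => decide (a.val ≠ b.val)
  | .inl (.inr b), .inl (.inl a) => decide (a.val ≠ b.val)
  | .inr p, .inr q => decide (p.1 = q.1 ∧ p.2 ≠ q.2)
  | _, _ => false

theorem adjN_symm (x j : ℕ) : ∀ u v, adjN x j u v = true → adjN x j v u = true := by
  rintro ((a | a) | ⟨a, s⟩) ((b | b) | ⟨b, t⟩) h
  all_goals first
    | exact h
    | (simp only [adjN, decide_eq_true_eq] at h ⊢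
       exact ⟨h.1.symm, fun e => h.2 e.symm⟩)

theorem adjN_irrefl (x j : ℕ) : ∀ u, ¬ adjN x j u u = true := by
  rintro ((a | a) | ⟨a, s⟩) h <;> simp_all [adjN]

/-- The graph `G(x) ∪ j K_2`. -/
def Named (x j : ℕ) : SimpleGraph (NV x j) where
  Adj u v := adjN x j u v = true
  symm := ⟨adjN_symm x j⟩
  loopless := ⟨adjN_irrefl x j⟩

instance (x j : ℕ) : DecidableRel (Named x j).Adj :=
  fun u v => inferInstanceAs (Decidable (adjN x j u v = true))

/-- A graph on `Fin 8` from a list of edges. -/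
def mk (l : List (Fin 8 × Fin 8)) : SimpleGraph (Fin 8) where
  Adj u v := u ≠ v ∧ ((u, v) ∈ l ∨ (v, u) ∈ l)
  symm := ⟨fun _ _ h => ⟨h.1.symm, h.2.symm⟩⟩
  loopless := ⟨fun _ h => h.1 rfl⟩

instance (l : List (Fin 8 × Fin 8)) : DecidableRel (mk l).Adj :=
  fun u v => inferInstanceAs (Decidable (u ≠ v ∧ ((u, v) ∈ l ∨ (v, u) ∈ l)))

/-- The tree with edges `a1b3, a2b2, a2b4, a3b1, a3b4, a4b3, a4b4` (`a_i = i - 1`,
`b_i = i + 3`). -/
def T : SimpleGraph (Fin 8) := mk [(0,6),(1,5),(1,7),(2,4),(2,7),(3,6),(3,7)]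

/-- `K_{3,5}` (left part `0,1,2`) minus the edges `0 3`, `1 3`, `2 4`. -/
def H : SimpleGraph (Fin 8) := mk [(0,4),(0,5),(0,6),(0,7),(1,4),(1,5),(1,6),(1,7),(2,3),(2,5),(2,6),(2,7)]

instance : DecidableRel T.Adj := fun u v => by unfold T; infer_instance
instance : DecidableRel H.Adj := fun u v => by unfold H; infer_instance

instance {V : Type} [Fintype V] [DecidableEq V] (G : SimpleGraph V) [DecidableRel G.Adj]
    (S : Finset V) : Decidable (IsTDS G S) := by unfold IsTDS; infer_instance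

theorem gamma_eq {V : Type} (G : SimpleGraph V) (k : ℕ)
    (h1 : ∃ S : Finset V, IsTDS G S ∧ S.card = k) (h2 : ∀ S : Finset V, IsTDS G S → k ≤ S.card) :
    gammaT G = k := by
  refine le_antisymm (Nat.sInf_le h1) (le_csInf ⟨k, h1⟩ ?_)
  rintro b ⟨S, hS, rfl⟩
  exact h2 S hS

theorem T_gamma : gammaT T = 5 :=
  gamma_eq T 5 ⟨{6, 1, 2, 7, 0}, by decide +kernel, by decide +kernel⟩ (by decide +kernel)

theorem H_gamma : gammaT H = 3 :=
  gamma_eq H 3 ⟨{0, 2, 7}, by decide +kernel, by decide +kernel⟩ (by decide +kernel)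

theorem T_edges : Nat.card T.edgeSet = 7 := by
  rw [Nat.card_eq_fintype_card]
  decide +kernel

theorem H_edges : Nat.card H.edgeSet = 12 := by
  rw [Nat.card_eq_fintype_card]
  decide +kernel

theorem T_bip : Bipartite T := ⟨fun v => decide (v.val < 4), by decide +kernel⟩

theorem H_bip : Bipartite H := ⟨fun v => decide (v.val < 3), by decide +kernel⟩

theorem T_iso : NoIsolated T := by unfold NoIsolated; decide +kernel

theorem H_iso : NoIsolated H := by unfold NoIsolated; decide +kernel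

theorem T_ne : ¬ Nonempty (T ≃g Named 6 1) := by
  rintro ⟨f⟩
  have h : ∀ u v : Fin 8, T.degree u = 3 → T.degree v = 3 → u = v := by decide +kernel
  have d1 : (Named 6 1).degree (.inl (.inl 0)) = 3 := by decide +kernel
  have d2 : (Named 6 1).degree (.inl (.inl 1)) = 3 := by decide +kernel
  have e := h (f.symm (.inl (.inl 0))) (f.symm (.inl (.inl 1)))
    (by rw [f.symm.degree_eq]; exact d1) (by rw [f.symm.degree_eq]; exact d2)
  have e2 := f.symm.injective e
  exact absurd e2 (by decide)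

theorem H_ne : ¬ Nonempty (H ≃g Named 8 0) := by
  rintro ⟨f⟩
  have h : H.degree 3 = 1 := by decide +kernel
  have d : ∀ v, (Named 8 0).degree v ≠ 1 := by decide +kernel
  apply d (f 3)
  rw [f.degree_eq]
  exact h

/-- `G` is admissible for `(n, g)` and attains the bound of Q1. -/
def Attains (n g : ℕ) (G : SimpleGraph (Fin n)) : Prop :=
  Bipartite G ∧ NoIsolated G ∧ gammaT G = g ∧ Nat.card G.edgeSet = bound n g

/-- The graphs attaining the bound of Q1 are not only the graphs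
`G(n - γ_t + 3) ∪ ((γ_t - 3)/2) K_2`: this fails both for `γ_t = 5` and for `γ_t = 3` (with
`n = 8`). -/
theorem result :
    (∃ G : SimpleGraph (Fin 8), Attains 8 5 G ∧ ¬ Nonempty (G ≃g Named 6 1)) ∧
    (∃ G : SimpleGraph (Fin 8), Attains 8 3 G ∧ ¬ Nonempty (G ≃g Named 8 0)) ∧
    ¬ (∀ n g : ℕ, Odd g → 3 ≤ g → ∀ G : SimpleGraph (Fin n), Attains n g G →
      Nonempty (G ≃g Named (n - g + 3) ((g - 3) / 2))) := by
  refine ⟨⟨T, ⟨T_bip, T_iso, T_gamma, T_edges⟩, T_ne⟩, ⟨H, ⟨H_bip, H_iso, H_gamma, H_edges⟩, H_ne⟩,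
    ?_⟩
  intro h
  exact T_ne (h 8 5 (by decide) (by norm_num) T ⟨T_bip, T_iso, T_gamma, T_edges⟩)

end Pool.Agent.Results.MP_0479e2_co.Main
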