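import Mathlib

set_option autoImplicit false

namespace Pool.Agent.Results.MP_0479e2_co.Maximum

/-- `S` is a total dominating set of `G`. -/
def IsTDS {V : Type} (G : SimpleGraph V) (S : Finset V) : Prop :=
  ∀ v, ∃ u ∈ S, G.Adj v u

/-- The total domination number. -/
noncomputable def gammaT {V : Type} (G : SimpleGraph V) : ℕ :=
  sInf {k : ℕ | ∃ S : Finset V, IsTDS G S ∧ S.card = k}

/-- `G` is bipartite. -/
def Bipartite {V : Type} (G : SimpleGraph V) : Prop :=
  ∃ c : V → Bool, ∀ u v, G.Adj u v → c u ≠ c v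

/-- `G` has no isolated vertex. -/
def NoIsolated {V : Type} (G : SimpleGraph V) : Prop := ∀ v, ∃ u, G.Adj v u

/-- The bound of Q1. -/
def bound (n g : ℕ) : ℕ := ((n - g) * (n - g + 4) + 2 * g - 2) / 4

/-- The vertices of `G(x) ∪ j K_2`: `⌈x/2 - 1⌉` left ones, `⌊x/2 + 1⌋` right ones and `2 j`
others. -/
abbrev NV (x j : ℕ) : Type := (Fin ((x + 1) / 2 - 1) ⊕ Fin (x / 2 + 1)) ⊕ (Fin j × Bool)

/-- Adjacency in `G(x) ∪ j K_2`; the deleted maximum matching of `G(x)` joins the left and the
right vertex with equal index. -/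
def adjN (x j : ℕ) : NV x j → NV x j → Bool
  | .inl (.inl a), .inl (.inr b) => decide (a.val ≠ b.val)
  | .inl (.inr b), .inl (.inl a) => decide (a.val ≠ b.val)
  | .inr p, .inr q => decide (p.1 = q.1 ∧ p.2 ≠ q.2)
  | _, _ => false

theorem adjN_symm (x j : ℕ) : ∀ u v, adjN x j u v = true → adjN x j v u = true := by
  rintro ((a | a) | ⟨a, s⟩) ((b | b) | ⟨b, t⟩) h
  all_goals first
    | exact h
    | (simp only [adjN, decide_eq_true_eq] at h ⊢
       exact ⟨h.1.symm, fun e => h.2 e.symm⟩)

theorem adjN_irrefl (x j : ℕ) : ∀ u, ¬ adjN x j u u = true := by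
  rintro ((a | a) | ⟨a, s⟩) h <;> simp_all [adjN]

/-- The graph `G(x) ∪ j K_2`. -/
def Named (x j : ℕ) : SimpleGraph (NV x j) where
  Adj u v := adjN x j u v = true
  symm := ⟨adjN_symm x j⟩
  loopless := ⟨adjN_irrefl x j⟩

instance (x j : ℕ) : DecidableRel (Named x j).Adj :=
  fun u v => inferInstanceAs (Decidable (adjN x j u v = true))

/-- A graph on `Fin 8` from a list of edges. -/
def mk (l : List (Fin 8 × Fin 8)) : SimpleGraph (Fin 8) where
  Adj u v := u ≠ v ∧ ((u, v) ∈ l ∨ (v, u) ∈ l)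
  symm := ⟨fun _ _ h => ⟨h.1.symm, h.2.symm⟩⟩
  loopless := ⟨fun _ h => h.1 rfl⟩

instance (l : List (Fin 8 × Fin 8)) : DecidableRel (mk l).Adj :=
  fun u v => inferInstanceAs (Decidable (u ≠ v ∧ ((u, v) ∈ l ∨ (v, u) ∈ l)))

/-- The tree with edges `a1b3, a2b2, a2b4, a3b1, a3b4, a4b3, a4b4` (`a_i = i - 1`,
`b_i = i + 3`). -/
def T : SimpleGraph (Fin 8) := mk [(0,6),(1,5),(1,7),(2,4),(2,7),(3,6),(3,7)]

/-- `K_{3,5}` (left part `0,1,2`) minus the edges `0 3`, `1 3`, `2 4`. -/
def H : SimpleGraph (Fin 8) := mk [(0,4),(0,5),(0,6),(0,7),(1,4),(1,5),(1,6),(1,7),(2,3),(2,5),(2,6),(2,7)]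

instance : DecidableRel T.Adj := fun u v => by unfold T; infer_instance
instance : DecidableRel H.Adj := fun u v => by unfold H; infer_instance

instance {V : Type} [Fintype V] [DecidableEq V] (G : SimpleGraph V) [DecidableRel G.Adj]
    (S : Finset V) : Decidable (IsTDS G S) := by unfold IsTDS; infer_instance

theorem gamma_eq {V : Type} (G : SimpleGraph V) (k : ℕ)
    (h1 : ∃ S : Finset V, IsTDS G S ∧ S.card = k) (h2 : ∀ S : Finset V, IsTDS G S → k ≤ S.card) :
    gammaT G = k := by
  refine le_antisymm (Nat.sInf_le h1) (le_csInf ⟨k, h1⟩ ?_)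
  rintro b ⟨S, hS, rfl⟩
  exact h2 S hS

theorem T_gamma : gammaT T = 5 :=
  gamma_eq T 5 ⟨{6, 1, 2, 7, 0}, by decide +kernel, by decide +kernel⟩ (by decide +kernel)

theorem H_gamma : gammaT H = 3 :=
  gamma_eq H 3 ⟨{0, 2, 7}, by decide +kernel, by decide +kernel⟩ (by decide +kernel)

theorem T_edges : Nat.card T.edgeSet = 7 := by
  rw [Nat.card_eq_fintype_card]
  decide +kernel

theorem H_edges : Nat.card H.edgeSet = 12 := by
  rw [Nat.card_eq_fintype_card]
  decide +kernel

theorem T_bip : Bipartite T := ⟨fun v => decide (v.val < 4), by decide +kernel⟩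

theorem H_bip : Bipartite H := ⟨fun v => decide (v.val < 3), by decide +kernel⟩

theorem T_iso : NoIsolated T := by unfold NoIsolated; decide +kernel

theorem H_iso : NoIsolated H := by unfold NoIsolated; decide +kernel

theorem T_ne : ¬ Nonempty (T ≃g Named 6 1) := by
  rintro ⟨f⟩
  have h : ∀ u v : Fin 8, T.degree u = 3 → T.degree v = 3 → u = v := by decide +kernel
  have d1 : (Named 6 1).degree (.inl (.inl 0)) = 3 := by decide +kernel
  have d2 : (Named 6 1).degree (.inl (.inl 1)) = 3 := by decide +kernel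
  have e := h (f.symm (.inl (.inl 0))) (f.symm (.inl (.inl 1)))
    (by rw [f.symm.degree_eq]; exact d1) (by rw [f.symm.degree_eq]; exact d2)
  have e2 := f.symm.injective e
  exact absurd e2 (by decide)

theorem H_ne : ¬ Nonempty (H ≃g Named 8 0) := by
  rintro ⟨f⟩
  have h : H.degree 3 = 1 := by decide +kernel
  have d : ∀ v, (Named 8 0).degree v ≠ 1 := by decide +kernel
  apply d (f 3)
  rw [f.degree_eq]
  exact h

theorem max12 (G : SimpleGraph (Fin 8)) (hb : Bipartite G) (hg : gammaT G = 3) :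
    Nat.card G.edgeSet ≤ 12 := by
  classical
  obtain ⟨c, hc⟩ := hb
  have key : ∃ s : Bool, ∀ b, c b = s → ∃ a, c a ≠ s ∧ ¬ G.Adj b a := by
    by_contra hne
    push Not at hne
    obtain ⟨b1, h1, h1'⟩ := hne true
    obtain ⟨b2, h2, h2'⟩ := hne false
    have ht : IsTDS G {b1, b2} := by
      intro v
      by_cases hv : c v = true
      · exact ⟨b2, by simp, (h2' v (by simp [hv])).symm⟩
      · exact ⟨b1, by simp, (h1' v hv).symm⟩
    have hle : gammaT G ≤ ({b1, b2} : Finset (Fin 8)).card := Nat.sInf_le ⟨_, ht, rfl⟩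
    have h2c : ({b1, b2} : Finset (Fin 8)).card ≤ 2 := Finset.card_le_two
    omega
  obtain ⟨s, hs⟩ := key
  let B : Finset (Fin 8) := Finset.univ.filter (fun v => c v = s)
  let A : Finset (Fin 8) := Finset.univ.filter (fun v => ¬ c v = s)
  have hcard : B.card + A.card = 8 := by
    have := Finset.card_filter_add_card_filter_not (s := (Finset.univ : Finset (Fin 8)))
      (fun v => c v = s)
    rw [Finset.card_univ, Fintype.card_fin] at this
    exact this
  have hbw : G.IsBipartiteWith (B : Set (Fin 8)) (A : Set (Fin 8)) := by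
    refine ⟨?_, ?_⟩
    · rw [Finset.disjoint_coe]
      exact Finset.disjoint_filter_filter_not _ _ _
    · intro v w h
      have hvw := hc v w h
      by_cases hv : c v = s
      · left
        refine ⟨by simp [B, hv], ?_⟩
        simp only [A, Finset.coe_filter, Finset.mem_univ, true_and, Set.mem_ofPred_eq]
        intro hw
        exact hvw (hv.trans hw.symm)
      · right
        refine ⟨by simp [A, hv], ?_⟩
        simp only [B, Finset.coe_filter, Finset.mem_univ, true_and, Set.mem_ofPred_eq]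
        revert hvw hv
        cases c v <;> cases c w <;> cases s <;> simp
  have e := SimpleGraph.isBipartiteWith_sum_degrees_eq_card_edges hbw
  have hdeg : ∀ v ∈ B, G.degree v ≤ A.card - 1 := by
    intro v hv
    have hv' : c v = s := by simpa [B] using hv
    obtain ⟨x, hx1, hx2⟩ := hs v hv'
    have hxA : x ∈ A := by simp [A, hx1]
    rw [← Finset.card_erase_of_mem hxA, ← SimpleGraph.card_neighborFinset_eq_degree]
    refine Finset.card_le_card ?_
    intro y hy
    rw [SimpleGraph.mem_neighborFinset] at hy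
    rw [Finset.mem_erase]
    refine ⟨fun h => hx2 (h ▸ hy), ?_⟩
    have hne := hc v y hy
    simp only [A, Finset.mem_filter, Finset.mem_univ, true_and]
    intro hy2
    exact hne (hv'.trans hy2.symm)
  have hsum : ∑ v ∈ B, G.degree v ≤ B.card * (A.card - 1) := by
    have := Finset.sum_le_card_nsmul B (fun v => G.degree v) (A.card - 1) hdeg
    simpa using this
  have hE : Nat.card G.edgeSet = G.edgeFinset.card := by
    rw [Nat.card_eq_fintype_card, SimpleGraph.edgeFinset_card]
  rw [hE, ← e]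
  refine hsum.trans ?_
  have hB : B.card = 8 - A.card := by omega
  have hA : A.card ≤ 8 := by omega
  rw [hB]
  generalize A.card = m at hA
  interval_cases m <;> decide

/-- `G` is admissible for `(n, g)` and has the maximum size among all admissible graphs. -/
def Extremal (n g : ℕ) (G : SimpleGraph (Fin n)) : Prop :=
  Bipartite G ∧ NoIsolated G ∧ gammaT G = g ∧
    ∀ G' : SimpleGraph (Fin n), Bipartite G' → NoIsolated G' → gammaT G' = g →
      Nat.card G'.edgeSet ≤ Nat.card G.edgeSet

/-- The maximum-size graph is not always `G(n - γ_t + 3) ∪ ((γ_t - 3)/2) K_2`: for `n = 8`,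
`γ_t = 3` there is a graph of maximum size, equal to the bound `12` of Q1, not isomorphic to
`G(8)`. -/
theorem result :
    (∃ G : SimpleGraph (Fin 8), Extremal 8 3 G ∧ Nat.card G.edgeSet = bound 8 3 ∧
      ¬ Nonempty (G ≃g Named 8 0)) ∧
    ¬ (∀ n g : ℕ, Odd g → 3 ≤ g → ∀ G : SimpleGraph (Fin n), Extremal n g G →
      Nonempty (G ≃g Named (n - g + 3) ((g - 3) / 2))) := by
  have hH : Extremal 8 3 H := ⟨H_bip, H_iso, H_gamma, fun G' h1 _ h3 => by
    rw [H_edges]; exact max12 G' h1 h3⟩
  refine ⟨⟨H, hH, H_edges, H_ne⟩, ?_⟩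
  intro h
  exact H_ne (h 8 3 (by decide) (by norm_num) H hH)

end Pool.Agent.Results.MP_0479e2_co.Maximum
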